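import Pool.Agent.H27.OPS.Ops

set_option autoImplicit false
set_option linter.unusedSectionVars false

/-!
# OPS: the maps `ψ_L(y) = pr (R_Z (τ [L] y))`

`Z` a list of variables, `L` a list of slots (exponents of degree `e`), `|Z| = |L| + 1`.
-/

open MvPolynomial

namespace Pool.Agent.H27.OPS

open Pool.Agent.H27.OP Pool.Agent.H20.S3

variable {σ k : Type*} [Fintype σ] [Field k]

section ring

variable {O : Type*} [Ring O] [Algebra k O] {d : ℕ} (S : Fx σ k O d)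

lemma Rs_b {e : ℕ} (x : σ) {ν : σ →₀ ℕ} (hν : ν ∈ Mo σ e) :
    Rs S e x * S.b ν = S.b ν * Rs S e x + S.Ee (X x * monomial ν 1) := by
  classical
  have h1 : ∀ ν' ∈ Mo σ e, S.Ee (X x * monomial ν' 1) * S.db ν' * S.b ν
      = S.b ν * (S.Ee (X x * monomial ν' 1) * S.db ν')
        + (if ν' = ν then S.Ee (X x * monomial ν 1) else 0) := by
    intro ν' _
    have h2 : ∀ u : MvPolynomial σ k, S.Ee u * S.b ν = S.b ν * S.Ee u := by
      intro u
      rw [Fk.Ee_apply, Finset.mul_sum, Finset.sum_mul]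
      refine Finset.sum_congr rfl fun μ _ => ?_
      rw [mul_smul_comm, smul_mul_assoc, S.bE]
    by_cases h : ν' = ν
    · subst h
      rw [if_pos rfl, mul_assoc, S.dbbs, mul_add, mul_one, ← mul_assoc, ← mul_assoc, h2]
    · rw [if_neg h, add_zero, mul_assoc, S.dbb ν' ν h, ← mul_assoc, ← mul_assoc, h2]
  unfold Rs
  rw [Finset.sum_mul, Finset.sum_congr rfl h1, Finset.sum_add_distrib, Finset.sum_ite_eq',
    if_pos hν, Finset.mul_sum]

lemma db_Rx (e : ℕ) (x : σ) (ν : σ →₀ ℕ) : S.db ν * S.Rx e x = S.Rx e x * S.db ν := by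
  rw [Rx_eq, mul_add, add_mul]
  congr 1
  · rw [← mul_assoc, S.dbm, mul_assoc, S.dbdth, mul_assoc]
  · unfold Rs
    rw [Finset.sum_mul, Finset.mul_sum]
    refine Finset.sum_congr rfl fun ν' _ => ?_
    rw [← mul_assoc, S.db_Ee, mul_assoc, S.dbdb, mul_assoc]

/-- `x ∂_y x^ν` -/
lemma Xpd (x y : σ) (ν : σ →₀ ℕ) : (X x : MvPolynomial σ k) * pderiv y (monomial ν 1)
    = (ν y : k) • monomial (ν - Finsupp.single y 1 + Finsupp.single x 1) 1 := by
  rw [pderiv_monomial, X, monomial_mul, one_mul, one_mul, smul_monomial, smul_eq_mul, mul_one,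
    add_comm]

lemma Mo_repl {e : ℕ} {x y : σ} {ν : σ →₀ ℕ} (hν : ν ∈ Mo σ e) (hy : ν y ≠ 0) :
    ν - Finsupp.single y 1 + Finsupp.single x 1 ∈ Mo σ e := by
  have h1 : ν - Finsupp.single y 1 + Finsupp.single y 1 = ν := by
    ext z
    by_cases hz : z = y
    · subst hz
      simp only [Finsupp.coe_add, Finsupp.coe_tsub, Pi.add_apply, Pi.sub_apply,
        Finsupp.single_eq_same]
      omega
    · simp [Finsupp.single_eq_of_ne hz]
  rw [mem_Mo] at hν ⊢
  rw [map_add, Finsupp.degree_single]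
  have h2 : (ν - Finsupp.single y 1 + Finsupp.single y 1).degree = e := by rw [h1, hν]
  rwa [map_add, Finsupp.degree_single] at h2

lemma Bb_monomial {e : ℕ} {ν : σ →₀ ℕ} (hν : ν ∈ Mo σ e) : S.Bb e (monomial ν 1) = S.b ν := by
  classical
  rw [Fx.Bb_apply, Finset.sum_eq_single ν]
  · simp
  · intro ν' _ h
    rw [coeff_monomial, if_neg (Ne.symm h), zero_smul]
  · intro h; exact absurd hν h

lemma Bb_Xpd {e : ℕ} (x y : σ) {ν : σ →₀ ℕ} (hν : ν ∈ Mo σ e) :
    S.Bb e (X x * pderiv y (monomial ν 1))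
      = (ν y : k) • S.b (ν - Finsupp.single y 1 + Finsupp.single x 1) := by
  rw [Xpd, map_smul]
  by_cases hy : ν y = 0
  · rw [hy]; simp
  · rw [Bb_monomial S (Mo_repl hν hy)]

end ring

section

variable {F : Type*} [AddCommGroup F] [Module k F] {d : ℕ}
variable {S : Fk σ k (Module.End k F) d} (A : Gr S)
variable {XF : Type*} [AddCommGroup XF] [Module k XF] (Y : Xt S XF)

/-- `ψ_L(y) = pr (R_Z (τ [L] y))` -/
noncomputable def psi (Y : Xt S XF) (e : ℕ) (Z : List σ) (L : List (σ →₀ ℕ)) : F →ₗ[k] F :=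
  Y.pr ∘ₗ (Y.S'.Rl e Z * Y.S'.th * bl Y.S' L) ∘ₗ Y.j

lemma psi_apply (e : ℕ) (Z : List σ) (L : List (σ →₀ ℕ)) (y : F) :
    psi Y e Z L y = Y.pr (Y.S'.Rl e Z (Y.S'.th (bl Y.S' L (Y.j y)))) := rfl

lemma j_Ee (u : MvPolynomial σ k) (w : F) : Y.S'.Ee u (Y.j w) = Y.j (S.Ee u w) := by
  rw [Fk.Ee_apply, Fk.Ee_apply, LinearMap.sum_apply, LinearMap.sum_apply, map_sum]
  refine Finset.sum_congr rfl fun μ _ => ?_
  rw [LinearMap.smul_apply, LinearMap.smul_apply, map_smul, Y.j_E]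

lemma Ex_j (e : ℕ) (x y : σ) (w : F) : Ex Y.S' e x y (Y.j w) = Y.j (S.D (X x) y w) := by
  have h1 : Nx Y.S' e x y (Y.j w) = 0 := by
    unfold Nx
    rw [LinearMap.sum_apply]
    refine Finset.sum_eq_zero fun ν _ => ?_
    rw [Module.End.mul_apply, Y.j_db, map_zero]
  rw [Ex, LinearMap.add_apply, h1, add_zero, D_apply, D_apply, map_add, map_sum]
  congr 1
  · rw [← Y.j_m, ← Y.j_T]
  · refine Finset.sum_congr rfl fun μ _ => ?_
    rw [← j_Ee, ← Y.j_J]

lemma b_Ee' (ν : σ →₀ ℕ) (u : MvPolynomial σ k) :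
    Y.S'.b ν * Y.S'.Ee u = Y.S'.Ee u * Y.S'.b ν := by
  rw [Fk.Ee_apply, Finset.mul_sum, Finset.sum_mul]
  refine Finset.sum_congr rfl fun μ _ => ?_
  rw [mul_smul_comm, smul_mul_assoc, Y.S'.bE]

/-- `R_x` on products of slots -/
lemma BB_Rx {e r : ℕ} {W W' : Submodule k F} (hW : ∀ w ∈ W, ∀ u, S.Ee u w ∈ W') (x : σ)
    {ξ : XF} (h : ξ ∈ BB Y e r W) : Y.S'.Rx e x ξ ∈ BB Y e (r - 1) W' := by
  have h0 : ∀ L : List (σ →₀ ℕ), (∀ ν ∈ L, ν ∈ Mo σ e) → ∀ w ∈ W,
      Rs Y.S' e x (bl Y.S' L (Y.j w)) ∈ BB Y e (L.length - 1) W' ∧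
        (L = [] → Rs Y.S' e x (bl Y.S' L (Y.j w)) = 0) := by
    intro L
    induction L with
    | nil =>
      intro _ w _
      have h1 : Rs Y.S' e x (bl Y.S' [] (Y.j w)) = 0 := by
        rw [bl, Module.End.one_apply]
        unfold Rs
        rw [LinearMap.sum_apply]
        refine Finset.sum_eq_zero fun ν _ => ?_
        rw [Module.End.mul_apply, Y.j_db, map_zero]
      rw [h1]
      exact ⟨zero_mem _, fun _ => rfl⟩
    | cons ν L ih =>
      intro hL w hw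
      have hL' : ∀ ν ∈ L, ν ∈ Mo σ e := fun ν hν => hL ν (List.mem_cons_of_mem _ hν)
      have hν : ν ∈ Mo σ e := hL ν List.mem_cons_self
      refine ⟨?_, fun h => absurd h (List.cons_ne_nil _ _)⟩
      have h2 := congrArg (fun f : Module.End k XF => f (bl Y.S' L (Y.j w))) (Rs_b Y.S' x hν)
      simp only [Module.End.mul_apply, LinearMap.add_apply] at h2
      rw [bl, Module.End.mul_apply, h2, List.length_cons, Nat.add_sub_cancel]
      refine add_mem ?_ ?_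
      · rcases L with _ | ⟨ν', L⟩
        · rw [(ih hL' w hw).2 rfl, map_zero]
          exact zero_mem _
        · have := BB_b Y hν (ih hL' w hw).1
          rwa [List.length_cons, Nat.add_sub_cancel] at this
      · have h4 := congrArg (fun f : Module.End k XF => f (Y.j w))
          (bl_comm Y.S' L (X := Y.S'.Ee (X x * monomial ν 1)) (fun ν' => b_Ee' Y ν' _))
        simp only [Module.End.mul_apply] at h4
        rw [← h4, j_Ee]
        exact Submodule.subset_span ⟨L, hL', rfl, _, hW w hw _, rfl⟩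
  have h1 : Y.S'.Rx e x ξ = Rs Y.S' e x ξ := by
    rw [Rx_eq, LinearMap.add_apply, Module.End.mul_apply, BB_dth Y h, map_zero, zero_add]
  rw [h1]
  have h2 : BB Y e r W ≤ (BB Y e (r - 1) W').comap (Rs Y.S' e x) := by
    nth_rewrite 1 [BB]
    rw [Submodule.span_le]
    rintro ξ ⟨L, hL, rfl, w, hw, rfl⟩
    exact (h0 L hL w hw).1
  exact h2 h

lemma BB_Rx0 {e : ℕ} {W : Submodule k F} (x : σ) {ξ : XF} (h : ξ ∈ BB Y e 0 W) :
    Y.S'.Rx e x ξ = 0 := by
  obtain ⟨w, _, rfl⟩ := BB_zero_iff Y h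
  exact Rx_j Y e x w

/-- `R_Z` on products of slots -/
lemma BB_Rl {e : ℕ} {V : ℕ → Submodule k F} (hV : ∀ p, ∀ w ∈ V p, ∀ u, S.Ee u w ∈ V (p + 1))
    (Z : List σ) : ∀ {p : ℕ} {ξ : XF}, ξ ∈ BB Y e Z.length (V p) →
      Y.S'.Rl e Z ξ ∈ BB Y e 0 (V (p + Z.length)) := by
  induction Z with
  | nil => intro p ξ h; simpa [Fx.Rl] using h
  | cons z Z ih =>
    intro p ξ h
    rw [Fx.Rl, Module.End.mul_apply]
    have h1 := BB_Rx Y (hV p) z h
    rw [List.length_cons, Nat.add_sub_cancel] at h1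
    have h2 := ih h1
    have h3 : p + 1 + Z.length = p + (z :: Z).length := by rw [List.length_cons]; omega
    rwa [h3] at h2

/-- `R_Z (τ ξ)` with `ξ` a combination of products of `|Z| - 1` slots -/
lemma BB_Rl_th {e : ℕ} {V V' : ℕ → Submodule k F}
    (hV : ∀ p, ∀ w ∈ V p, ∀ u, S.Ee u w ∈ V (p + 1))
    (hV' : ∀ p, ∀ w ∈ V' p, ∀ u, S.Ee u w ∈ V' (p + 1))
    (hX : ∀ p, ∀ w ∈ V p, ∀ x : σ, S.m (X x) w ∈ V' p)
    (Z : List σ) : ∀ {p r : ℕ} {ξ : XF}, Z.length = r + 1 → ξ ∈ BB Y e r (V p) →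
      Y.S'.Rl e Z (Y.S'.th ξ) ∈ BB Y e 0 (V' (p + r)) := by
  induction Z with
  | nil => intro p r ξ h _; simp at h
  | cons z Z ih =>
    intro p r ξ hr h
    have h1 : Y.S'.Rx e z (Y.S'.th ξ) = Y.S'.m (X z) ξ - Y.S'.th (Y.S'.Rx e z ξ) := by
      have e1 := congrArg (fun f : Module.End k XF => f ξ) Y.S'.dd
      have e2 := congrArg (fun f : Module.End k XF => f ξ) (Rs_th Y.S' e z)
      simp only [Module.End.mul_apply, LinearMap.sub_apply, LinearMap.neg_apply,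
        Module.End.one_apply] at e1 e2
      rw [BB_dth Y h, map_zero, sub_zero] at e1
      rw [Rx_eq, LinearMap.add_apply, LinearMap.add_apply, Module.End.mul_apply,
        Module.End.mul_apply, e1, e2, BB_dth Y h, map_zero, zero_add]
      abel
    rw [List.length_cons, Nat.add_right_cancel_iff] at hr
    rw [Fx.Rl, Module.End.mul_apply, h1, map_sub]
    refine sub_mem ?_ ?_
    · have h2 : Y.S'.m (X z) ξ ∈ BB Y e Z.length (V' p) := by
        rw [hr]
        exact BB_op Y (Y.S'.m (X z)) (S.m (X z)) (fun ν' => Y.S'.bm ν' _) (fun w => Y.j_m _ w)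
          (fun w hw => hX p w hw z) h
      have h3 := BB_Rl Y hV' Z h2
      rwa [hr] at h3
    · rcases r with _ | r
      · rw [BB_Rx0 Y z h, map_zero, map_zero]
        exact zero_mem _
      · have h2 := BB_Rx Y (hV p) z h
        rw [Nat.add_sub_cancel] at h2
        have h3 := ih hr h2
        have h4 : p + 1 + r = p + (r + 1) := by omega
        rwa [h4] at h3

/-- `R_Z (τ [L] y)` is in the image of `j` -/
lemma psi_spec {e : ℕ} {Z : List σ} {L : List (σ →₀ ℕ)} (hL : ∀ ν ∈ L, ν ∈ Mo σ e)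
    (hZ : Z.length = L.length + 1) (y : F) :
    Y.S'.Rl e Z (Y.S'.th (bl Y.S' L (Y.j y))) = Y.j (psi Y e Z L y) := by
  have h1 : bl Y.S' L (Y.j y) ∈ BB Y e L.length ((fun _ => ⊤ : ℕ → Submodule k F) 0) :=
    Submodule.subset_span ⟨L, hL, rfl, y, Submodule.mem_top, rfl⟩
  have h2 := BB_Rl_th Y (V := fun _ => ⊤) (V' := fun _ => ⊤)
    (fun _ _ _ _ => Submodule.mem_top) (fun _ _ _ _ => Submodule.mem_top)
    (fun _ _ _ _ => Submodule.mem_top) Z (p := 0) hZ h1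
  obtain ⟨w, _, h3⟩ := BB_zero_iff Y h2
  rw [psi_apply, h3, Y.pr_j]

include A in
lemma psi_G {e p m : ℕ} {Z : List σ} {L : List (σ →₀ ℕ)} (hL : ∀ ν ∈ L, ν ∈ Mo σ e)
    (hZ : Z.length = L.length + 1) {y : F} (hy : y ∈ A.G p m) :
    psi Y e Z L y ∈ A.G (p + L.length) (m + 1) := by
  have h1 : bl Y.S' L (Y.j y) ∈ BB Y e L.length ((fun p => A.G p m) p) :=
    Submodule.subset_span ⟨L, hL, rfl, y, hy, rfl⟩
  have h2 := BB_Rl_th Y (V := fun p => A.G p m) (V' := fun p => A.G p (m + 1))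
    (fun _ _ hw u => Ee_mem A hw u) (fun _ _ hw u => Ee_mem A hw u)
    (fun _ _ hw x => A.Gm (isHomogeneous_X _ _) hw) Z hZ h1
  obtain ⟨w, hw, h3⟩ := BB_zero_iff Y h2
  rw [psi_apply, h3, Y.pr_j]
  exact hw

lemma bl_j {L : List (σ →₀ ℕ)} {X' : Module.End k XF} {X : Module.End k F}
    (hb : ∀ ν, Y.S'.b ν * X' = X' * Y.S'.b ν) (hj : ∀ w, X' (Y.j w) = Y.j (X w)) (w : F) :
    X' (bl Y.S' L (Y.j w)) = bl Y.S' L (Y.j (X w)) := by
  have h3 := congrArg (fun f : Module.End k XF => f (Y.j w)) (bl_comm Y.S' L hb)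
  simp only [Module.End.mul_apply] at h3
  rw [← h3, hj]

lemma psi_m (e : ℕ) (Z : List σ) (L : List (σ →₀ ℕ)) (a : MvPolynomial σ k) (y : F) :
    psi Y e Z L (S.m a y) = S.m a (psi Y e Z L y) := by
  have h1 := bl_j Y (L := L) (X' := Y.S'.m a) (X := S.m a) (fun ν => Y.S'.bm ν a)
    (fun w => Y.j_m a w) y
  have h2 := congrArg (fun f : Module.End k XF => f (bl Y.S' L (Y.j y))) (Y.S'.thm a)
  have h3 := congrArg (fun f : Module.End k XF => f (Y.S'.th (bl Y.S' L (Y.j y))))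
    (Rl_m Y.S' e Z a)
  simp only [Module.End.mul_apply] at h2 h3
  rw [psi_apply, psi_apply, ← h1, h2, h3, Y.pr_m]

lemma psi_del {e : ℕ} (hd : d = e + 1) (Z : List σ) (L : List (σ →₀ ℕ)) {y : F}
    (hy : S.del y = 0) : S.del (psi Y e Z L y) = 0 := by
  have h1 := bl_j Y (L := L) (X' := Y.S'.del) (X := S.del) (fun ν => b_del Y.S' ν)
    (fun w => j_del Y w) y
  have h2 := congrArg (fun f : Module.End k XF => f (bl Y.S' L (Y.j y))) (dx_th Y.S' e)
  have h3 := congrArg (fun f : Module.End k XF => f (Y.S'.th (bl Y.S' L (Y.j y))))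
    (Y.S'.RR_dx hd Z)
  simp only [Module.End.mul_apply, LinearMap.neg_apply, LinearMap.smul_apply] at h2 h3
  rw [h1, hy, map_zero, map_zero, map_zero, neg_zero] at h2
  rw [h2, map_zero] at h3
  have h4 : Y.S'.dx e (Y.S'.Rl e Z (Y.S'.th (bl Y.S' L (Y.j y)))) = 0 := by
    have h5 := congrArg (fun z => Fk.sg k Z.length • z) h3
    simp only [smul_zero, smul_smul, Fk.sg_sq, one_smul] at h5
    exact h5.symm
  rw [psi_apply, ← pr_dx Y e, h4, map_zero]

lemma psi_T {e : ℕ} {Z : List σ} {L : List (σ →₀ ℕ)} (hL : ∀ ν ∈ L, ν ∈ Mo σ e)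
    (hZ : Z.length = L.length + 1) {x : σ} (hx : x ∉ Z) (y : F) :
    S.T x (psi Y e Z L y) = psi Y e Z L (S.T x y) := by
  have h0 := psi_spec Y hL hZ y
  have h1 := bl_j Y (L := L) (X' := Y.S'.T x) (X := S.T x) (fun ν => Y.S'.bT ν x)
    (fun w => Y.j_T x w) y
  have h2 := congrArg (fun f : Module.End k XF => f (bl Y.S' L (Y.j y))) (Y.S'.thT x)
  have h3 := congrArg (fun f : Module.End k XF => f (Y.S'.th (bl Y.S' L (Y.j y))))
    (T_Rl Y.S' (e := e) Z hx)
  simp only [Module.End.mul_apply] at h2 h3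
  have h4 : Y.j (S.T x (psi Y e Z L y)) = Y.S'.T x (Y.j (psi Y e Z L y)) := (Y.j_T x _).symm
  rw [← h0, h3, ← h2, h1] at h4
  have h5 := congrArg Y.pr h4
  rwa [Y.pr_j] at h5

lemma db_bl_not {L : List (σ →₀ ℕ)} {ν : σ →₀ ℕ} (h : ν ∉ L) (y : F) :
    Y.S'.db ν (bl Y.S' L (Y.j y)) = 0 := by
  induction L with
  | nil => rw [bl, Module.End.one_apply, Y.j_db]
  | cons ν' L ih =>
    rw [List.mem_cons, not_or] at h
    have h2 := congrArg (fun f : Module.End k XF => f (bl Y.S' L (Y.j y)))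
      (Y.S'.dbb ν ν' h.1)
    simp only [Module.End.mul_apply] at h2
    rw [bl, Module.End.mul_apply, h2, ih h.2, map_zero]

/-- `J_μ R_Z = ± R_Z J_μ` on vectors killed by the relevant slots -/
lemma J_Rl {e : ℕ} (Z : List σ) {μ : σ →₀ ℕ} (hμ : μ ∈ Mo σ d) : ∀ {ξ : XF},
    (∀ x ∈ Z, ∀ ν ∈ Mo σ e, coeff μ (X x * monomial ν (1 : k)) ≠ 0 → Y.S'.db ν ξ = 0) →
    Y.S'.J μ (Y.S'.Rl e Z ξ) = Fk.sg k Z.length • Y.S'.Rl e Z (Y.S'.J μ ξ) := by
  induction Z with
  | nil => intro ξ _; simp [Fx.Rl, Fk.sg]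
  | cons z Z ih =>
    intro ξ h
    have h1 := congrArg (fun f : Module.End k XF => f ξ) (J_Rx Y.S' (e := e) z hμ)
    simp only [Module.End.mul_apply, LinearMap.add_apply, LinearMap.neg_apply,
      LinearMap.sum_apply, LinearMap.smul_apply] at h1
    have h2 : ∑ ν ∈ Mo σ e, coeff μ (X z * monomial ν (1 : k)) • Y.S'.db ν ξ = 0 := by
      refine Finset.sum_eq_zero fun ν hν => ?_
      by_cases hc : coeff μ (X z * monomial ν (1 : k)) = 0
      · rw [hc, zero_smul]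
      · rw [h z List.mem_cons_self ν hν hc, smul_zero]
    rw [h2, add_zero] at h1
    rw [Fx.Rl, Module.End.mul_apply, ih, h1, map_neg, List.length_cons, Fk.sg_succ, neg_smul,
      smul_neg, Module.End.mul_apply]
    intro x hx ν hν hc
    have h3 := congrArg (fun f : Module.End k XF => f ξ) (db_Rx Y.S' e z ν)
    simp only [Module.End.mul_apply] at h3
    rw [h3, h x (List.mem_cons_of_mem _ hx) ν hν hc, map_zero]

lemma psi_J {e : ℕ} {Z : List σ} {L : List (σ →₀ ℕ)} {μ : σ →₀ ℕ} (hμ : μ ∈ Mo σ d)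
    (hbad : ∀ x ∈ Z, ∀ ν ∈ L, μ ≠ ν + Finsupp.single x 1) (y : F) :
    S.J μ (psi Y e Z L y) = Fk.sg k (Z.length + 1) • psi Y e Z L (S.J μ y) := by
  have h1 := bl_j Y (L := L) (X' := Y.S'.J μ) (X := S.J μ) (fun ν => Y.S'.bJ ν μ)
    (fun w => Y.j_J μ w) y
  have h2 := congrArg (fun f : Module.End k XF => f (bl Y.S' L (Y.j y))) (Y.S'.thJ μ)
  simp only [Module.End.mul_apply, LinearMap.neg_apply] at h2
  have h3 := J_Rl Y (e := e) Z hμ (ξ := Y.S'.th (bl Y.S' L (Y.j y))) (by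
    classical
    intro x hx ν _ hc
    have h4 : μ = ν + Finsupp.single x 1 := by
      by_contra h5
      refine hc ?_
      rw [X, monomial_mul, one_mul, coeff_monomial, if_neg]
      rw [add_comm]
      exact fun h6 => h5 h6.symm
    have h5 : ν ∉ L := fun h6 => hbad x hx ν h6 h4
    have h6 := congrArg (fun f : Module.End k XF => f (bl Y.S' L (Y.j y))) (Y.S'.dbth ν)
    simp only [Module.End.mul_apply] at h6
    rw [h6, db_bl_not Y h5, map_zero])
  have h4 : Y.S'.J μ (Y.S'.th (bl Y.S' L (Y.j y))) = -(Y.S'.th (bl Y.S' L (Y.j (S.J μ y)))) := by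
    rw [← h1, h2, neg_neg]
  rw [psi_apply, ← Y.pr_J, h3, h4, psi_apply, map_neg, Fk.sg_succ, smul_neg, neg_smul, map_neg,
    map_smul]

end

end Pool.Agent.H27.OPS
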