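import Pool.Agent.H27.OPS.Psi
import Pool.Agent.H10.OP.Defs

set_option autoImplicit false
set_option linter.unusedSectionVars false

/-!
# OPS: `x ∂_y` and the maps `ψ_L`
-/

open MvPolynomial

namespace Pool.Agent.H27.OPS

open Pool.Agent.H27.OP Pool.Agent.H20.S3
open Pool.Agent.H10.OP (cs)

variable {σ k : Type*} [Fintype σ] [Field k]

/-- replace one slot `ν` by `x ∂_y ν` -/
def nb (x y : σ) (L : List (σ →₀ ℕ)) : Set (List (σ →₀ ℕ)) :=
  {L' | ∃ L1 ν L2, L = L1 ++ ν :: L2 ∧ ν y ≠ 0 ∧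
    L' = L1 ++ (ν - Finsupp.single y 1 + Finsupp.single x 1) :: L2}

lemma nb_head {x y : σ} {ν : σ →₀ ℕ} (L : List (σ →₀ ℕ)) (h : ν y ≠ 0) :
    (ν - Finsupp.single y 1 + Finsupp.single x 1) :: L ∈ nb x y (ν :: L) :=
  ⟨[], ν, L, rfl, h, rfl⟩

lemma nb_cons {x y : σ} (ν : σ →₀ ℕ) {L L' : List (σ →₀ ℕ)} (h : L' ∈ nb x y L) :
    ν :: L' ∈ nb x y (ν :: L) := by
  obtain ⟨L1, ν', L2, h1, h2, h3⟩ := h
  exact ⟨ν :: L1, ν', L2, by rw [h1]; rfl, h2, by rw [h3]; rfl⟩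

lemma nb_length {x y : σ} {L L' : List (σ →₀ ℕ)} (h : L' ∈ nb x y L) :
    L'.length = L.length := by
  obtain ⟨L1, ν', L2, h1, _, h3⟩ := h
  rw [h1, h3]
  simp

lemma nb_cs {c x y : σ} (hx : x ≠ c) (hy : y ≠ c) {L L' : List (σ →₀ ℕ)} (h : L' ∈ nb x y L) :
    cs c L' = cs c L := by
  obtain ⟨L1, ν', L2, h1, _, h3⟩ := h
  have h4 : (ν' - Finsupp.single y 1 + Finsupp.single x 1 : σ →₀ ℕ) c = ν' c := by
    simp [Finsupp.single_eq_of_ne (Ne.symm hx), Finsupp.single_eq_of_ne (Ne.symm hy)]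
  rw [h1, h3]
  unfold cs
  rw [List.map_append, List.map_append, List.map_cons, List.map_cons, List.sum_append,
    List.sum_append, List.sum_cons, List.sum_cons, h4]

lemma nb_mem {x y : σ} {L L' : List (σ →₀ ℕ)} (h : L' ∈ nb x y L) {P : (σ →₀ ℕ) → Prop}
    (hP : ∀ ν ∈ L, P ν)
    (hr : ∀ ν, P ν → ν y ≠ 0 → P (ν - Finsupp.single y 1 + Finsupp.single x 1)) :
    ∀ ν ∈ L', P ν := by
  obtain ⟨L1, ν', L2, h1, h2, h3⟩ := h
  intro ν hν
  rw [h3, List.mem_append, List.mem_cons] at hν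
  rcases hν with h4 | h4 | h4
  · exact hP ν (by rw [h1]; simp [h4])
  · rw [h4]
    exact hr ν' (hP ν' (by rw [h1]; simp)) h2
  · exact hP ν (by rw [h1]; simp [h4])

section

variable {F : Type*} [AddCommGroup F] [Module k F] {d : ℕ}
variable {S : Fk σ k (Module.End k F) d}
variable {XF : Type*} [AddCommGroup XF] [Module k XF] (Y : Xt S XF)

lemma Ex_bl_mem {e : ℕ} (x y : σ) {L : List (σ →₀ ℕ)} (hL : ∀ ν ∈ L, ν ∈ Mo σ e) (ξ : XF) :
    Ex Y.S' e x y (bl Y.S' L ξ) - bl Y.S' L (Ex Y.S' e x y ξ)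
      ∈ Submodule.span k {η | ∃ L' ∈ nb x y L, η = bl Y.S' L' ξ} := by
  induction L with
  | nil =>
    rw [bl, Module.End.one_apply, Module.End.one_apply, sub_self]
    exact zero_mem _
  | cons ν L ih =>
    have hν : ν ∈ Mo σ e := hL ν List.mem_cons_self
    have ih' := ih fun ν hν => hL ν (List.mem_cons_of_mem _ hν)
    have h1 := congrArg (fun f : Module.End k XF => f (bl Y.S' L ξ)) (Ex_b Y.S' x y hν)
    simp only [Module.End.mul_apply, LinearMap.add_apply] at h1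
    have h2 : Ex Y.S' e x y (bl Y.S' (ν :: L) ξ) - bl Y.S' (ν :: L) (Ex Y.S' e x y ξ)
        = Y.S'.b ν (Ex Y.S' e x y (bl Y.S' L ξ) - bl Y.S' L (Ex Y.S' e x y ξ))
          + (ν y : k) • bl Y.S' ((ν - Finsupp.single y 1 + Finsupp.single x 1) :: L) ξ := by
      rw [bl, Module.End.mul_apply, h1, Bb_Xpd Y.S' x y hν, LinearMap.smul_apply, map_sub, bl,
        Module.End.mul_apply, Module.End.mul_apply]
      abel
    rw [h2]
    refine add_mem ?_ ?_
    · have h3 : Submodule.span k {η | ∃ L' ∈ nb x y L, η = bl Y.S' L' ξ}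
          ≤ (Submodule.span k {η | ∃ L' ∈ nb x y (ν :: L), η = bl Y.S' L' ξ}).comap
            (Y.S'.b ν) := by
        rw [Submodule.span_le]
        rintro η ⟨L', hL', rfl⟩
        exact Submodule.subset_span ⟨ν :: L', nb_cons ν hL', by rw [bl, Module.End.mul_apply]⟩
      exact h3 ih'
    · by_cases h : ν y = 0
      · rw [h, Nat.cast_zero, zero_smul]
        exact zero_mem _
      · exact Submodule.smul_mem _ _ (Submodule.subset_span ⟨_, nb_head L h, rfl⟩)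

lemma Ex_bl_self {e : ℕ} (x : σ) {L : List (σ →₀ ℕ)} (hL : ∀ ν ∈ L, ν ∈ Mo σ e) (ξ : XF) :
    Ex Y.S' e x x (bl Y.S' L ξ)
      = bl Y.S' L (Ex Y.S' e x x ξ) + ((cs x L : ℕ) : k) • bl Y.S' L ξ := by
  induction L with
  | nil => simp [bl, cs]
  | cons ν L ih =>
    have hν : ν ∈ Mo σ e := hL ν List.mem_cons_self
    have ih' := ih fun ν hν => hL ν (List.mem_cons_of_mem _ hν)
    have h1 := congrArg (fun f : Module.End k XF => f (bl Y.S' L ξ)) (Ex_b Y.S' x x hν)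
    simp only [Module.End.mul_apply, LinearMap.add_apply] at h1
    have h2 : Y.S'.Bb e (X x * pderiv x (monomial ν 1)) = (ν x : k) • Y.S'.b ν := by
      rw [X_pd_mon, map_smul, Bb_monomial Y.S' hν]
    have h3 : cs x (ν :: L) = ν x + cs x L := by
      unfold cs
      rw [List.map_cons, List.sum_cons]
    rw [bl, Module.End.mul_apply, Module.End.mul_apply, h1, ih', h2, h3, map_add, map_smul,
      LinearMap.smul_apply, Nat.cast_add, add_smul]
    abel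

/-- `τ [L] y` is killed by `dth²` -/
lemma dd_th_bl (L : List (σ →₀ ℕ)) (y : F) :
    Y.S'.dth (Y.S'.dth (Y.S'.th (bl Y.S' L (Y.j y)))) = 0 := by
  have h0 : Y.S'.dth (bl Y.S' L (Y.j y)) = 0 := by
    have h3 := congrArg (fun f : Module.End k XF => f (Y.j y))
      (bl_comm Y.S' L (X := Y.S'.dth) (fun ν => Y.S'.bdth ν))
    simp only [Module.End.mul_apply] at h3
    rw [← h3, Y.j_dth, map_zero]
  have h1 := congrArg (fun f : Module.End k XF => f (bl Y.S' L (Y.j y))) Y.S'.dd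
  simp only [Module.End.mul_apply, LinearMap.sub_apply, Module.End.one_apply] at h1
  rw [h1, h0, map_zero, sub_zero, h0]

variable [CharZero k] {e : ℕ} {Z : List σ} {L : List (σ →₀ ℕ)}

/-- `D_{xx}`, `x ∈ Z` -/
theorem psi_D_self (hd : d = e + 1) (hL : ∀ ν ∈ L, ν ∈ Mo σ e) (hZ : Z.length = L.length + 1)
    (hn : Z.Nodup) {x : σ} (hx : x ∈ Z) (y : F) :
    S.D (X x) x (psi Y e Z L y)
      = psi Y e Z L (S.D (X x) x y) + ((cs x L + 1 : ℕ) : k) • psi Y e Z L y := by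
  have h1 : Ex Y.S' e x x (Y.S'.th (bl Y.S' L (Y.j y)))
      = Y.S'.th (bl Y.S' L (Y.j (S.D (X x) x y)))
        + ((cs x L : ℕ) : k) • Y.S'.th (bl Y.S' L (Y.j y)) := by
    have h2 := congrArg (fun f : Module.End k XF => f (bl Y.S' L (Y.j y))) (Ex_th Y.S' e x x)
    simp only [Module.End.mul_apply] at h2
    rw [h2, Ex_bl_self Y x hL, Ex_j, map_add, map_smul]
  have h3 := Ex_Rl_mem Y.S' hd Z hn hx hx (dd_th_bl Y L y)
  rw [if_pos rfl, h1, map_add, map_smul, psi_spec Y hL hZ, psi_spec Y hL hZ, Ex_j] at h3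
  have h4 := congrArg Y.pr h3
  rw [map_add, map_add, map_smul, Y.pr_j, Y.pr_j, Y.pr_j] at h4
  rw [h4, Nat.cast_add, Nat.cast_one, add_smul, one_smul]
  abel

/-- `D_{cc}`, `c ∉ Z` -/
theorem psi_D_not (hd : d = e + 1) (hL : ∀ ν ∈ L, ν ∈ Mo σ e) (hZ : Z.length = L.length + 1)
    {c : σ} (hc : c ∉ Z) (y : F) :
    S.D (X c) c (psi Y e Z L y)
      = psi Y e Z L (S.D (X c) c y) + ((cs c L : ℕ) : k) • psi Y e Z L y := by
  have h1 : Ex Y.S' e c c (Y.S'.th (bl Y.S' L (Y.j y)))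
      = Y.S'.th (bl Y.S' L (Y.j (S.D (X c) c y)))
        + ((cs c L : ℕ) : k) • Y.S'.th (bl Y.S' L (Y.j y)) := by
    have h2 := congrArg (fun f : Module.End k XF => f (bl Y.S' L (Y.j y))) (Ex_th Y.S' e c c)
    simp only [Module.End.mul_apply] at h2
    rw [h2, Ex_bl_self Y c hL, Ex_j, map_add, map_smul]
  have h3 := congrArg (fun f : Module.End k XF => f (Y.S'.th (bl Y.S' L (Y.j y))))
    (Ex_Rl_not Y.S' hd c c Z hc)
  simp only [Module.End.mul_apply] at h3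
  rw [h1, map_add, map_smul, psi_spec Y hL hZ, psi_spec Y hL hZ, Ex_j] at h3
  have h4 := congrArg Y.pr h3
  rwa [map_add, map_smul, Y.pr_j, Y.pr_j, Y.pr_j] at h4

open Classical in
/-- `D_{xy}`, `x, y ∈ Z` -/
theorem psi_D_mem (hd : d = e + 1) (hL : ∀ ν ∈ L, ν ∈ Mo σ e) (hZ : Z.length = L.length + 1)
    (hn : Z.Nodup) {x x' : σ} (hx : x ∈ Z) (hx' : x' ∈ Z) (y : F) :
    S.D (X x) x' (psi Y e Z L y) - psi Y e Z L (S.D (X x) x' y)
      - (if x = x' then psi Y e Z L y else 0)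
      ∈ Submodule.span k {η | ∃ L' ∈ nb x x' L, η = psi Y e Z L' y} := by
  have h0 := Ex_bl_mem Y x x' hL (Y.j y)
  rw [Ex_j] at h0
  set δ := Ex Y.S' e x x' (bl Y.S' L (Y.j y)) - bl Y.S' L (Y.j (S.D (X x) x' y)) with hδ
  have h1 : Ex Y.S' e x x' (Y.S'.th (bl Y.S' L (Y.j y)))
      = Y.S'.th (bl Y.S' L (Y.j (S.D (X x) x' y))) + Y.S'.th δ := by
    have h2 := congrArg (fun f : Module.End k XF => f (bl Y.S' L (Y.j y))) (Ex_th Y.S' e x x')
    simp only [Module.End.mul_apply] at h2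
    rw [h2, hδ, map_sub]
    abel
  have h3 := Ex_Rl_mem Y.S' hd Z hn hx hx' (dd_th_bl Y L y)
  rw [h1, map_add, psi_spec Y hL hZ, psi_spec Y hL hZ, Ex_j] at h3
  have h4 := congrArg Y.pr h3
  have h5 : Y.pr (if x = x' then Y.j (psi Y e Z L y) else 0)
      = if x = x' then psi Y e Z L y else 0 := by
    split_ifs
    · rw [Y.pr_j]
    · rw [map_zero]
  rw [map_add, map_add, Y.pr_j, Y.pr_j, h5] at h4
  have h6 : S.D (X x) x' (psi Y e Z L y) - psi Y e Z L (S.D (X x) x' y)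
      - (if x = x' then psi Y e Z L y else 0) = Y.pr (Y.S'.Rl e Z (Y.S'.th δ)) := by
    rw [h4]; abel
  rw [h6]
  have h7 : Submodule.span k {η | ∃ L' ∈ nb x x' L, η = bl Y.S' L' (Y.j y)}
      ≤ (Submodule.span k {η | ∃ L' ∈ nb x x' L, η = psi Y e Z L' y}).comap
        (Y.pr ∘ₗ (Y.S'.Rl e Z * Y.S'.th)) := by
    rw [Submodule.span_le]
    rintro η ⟨L', hL', rfl⟩
    exact Submodule.subset_span ⟨L', hL', rfl⟩
  exact h7 h0

end

end Pool.Agent.H27.OPS
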