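import Pool.Agent.H20.S3.Cap4

set_option autoImplicit false
set_option linter.unusedSectionVars false

/-!
# OPS: the Capelli type lemma for a set `P` of variables

`W` is only stable under `D (X x) y` for `x, y ∈ P`.

`capZ`: `pr (R_Z T_Z j κ) - (∏ (w z + ...)) κ ∈ W` for a list `Z` of variables in `P`.
-/

open MvPolynomial

namespace Pool.Agent.H27.OPS

open Pool.Agent.H27.OP

variable {σ k : Type*} [Fintype σ] [Field k]
variable {F : Type*} [AddCommGroup F] [Module k F] {d : ℕ}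
variable {S : Fk σ k (Module.End k F) d}
variable {XF : Type*} [AddCommGroup XF] [Module k XF] (Y : Xt S XF)

/-- span of `T_{z_1} ⋯ T_{z_r} j w`, `w ∈ W`, `z_i ∈ P` -/
def WZ (Y : Xt S XF) (e : ℕ) (P : σ → Prop) (W : Submodule k F) (r : ℕ) : Submodule k XF :=
  Submodule.span k {ξ | ∃ Z : List σ, (∀ z ∈ Z, P z) ∧ Z.length = r ∧
    ∃ w ∈ W, ξ = Y.S'.Tl e Z (Y.j w)}

variable {P : σ → Prop}

lemma WZ_T {e : ℕ} {W : Submodule k F} {r : ℕ} {z : σ} (hz : P z) {ξ : XF}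
    (h : ξ ∈ WZ Y e P W r) : Y.S'.Tz e z ξ ∈ WZ Y e P W (r + 1) := by
  have h1 : WZ Y e P W r ≤ (WZ Y e P W (r + 1)).comap (Y.S'.Tz e z) := by
    unfold WZ
    rw [Submodule.span_le]
    rintro ξ ⟨Z, hP, hZ, w, hw, rfl⟩
    refine Submodule.subset_span ⟨z :: Z, ?_, by simp [hZ], w, hw, by
      rw [Fx.Tl, Module.End.mul_apply]⟩
    intro z' hz'
    rcases List.mem_cons.mp hz' with h | h
    · rw [h]; exact hz
    · exact hP z' h
  exact h1 h

lemma WZ_H {e : ℕ} (hd : d = e + 1) {W : Submodule k F}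
    (hW : ∀ x y : σ, P x → P y → ∀ w ∈ W, S.D (X x) y w ∈ W) {r : ℕ} {x y : σ} (hx : P x)
    (hy : P y) {ξ : XF} (h : ξ ∈ WZ Y e P W r) : Y.S'.Hx e x y ξ ∈ WZ Y e P W r := by
  classical
  have h1 : ∀ (Z : List σ), (∀ z ∈ Z, P z) → ∀ (w : F), w ∈ W →
      Y.S'.Hx e x y (Y.S'.Tl e Z (Y.j w)) ∈ WZ Y e P W Z.length := by
    intro Z hZ w hw
    induction Z with
    | nil =>
      rw [Fx.Tl, Module.End.one_apply, Hx_j]
      exact Submodule.subset_span ⟨[], by simp, rfl, _, hW x y hx hy w hw, by simp [Fx.Tl]⟩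
    | cons z Z ih =>
      have hZ' : ∀ z ∈ Z, P z := fun z' hz' => hZ z' (List.mem_cons_of_mem _ hz')
      have hz : P z := hZ z List.mem_cons_self
      have ih' := ih hZ'
      have e1 := congrArg (fun f : Module.End k XF => f (Y.S'.Tl e Z (Y.j w)))
        (Y.S'.Hx_Tz hd x y z)
      simp only [Module.End.mul_apply, LinearMap.add_apply, LinearMap.sub_apply] at e1
      rw [Fx.Tl, Module.End.mul_apply, e1]
      have hm : Y.S'.Tl e Z (Y.j w) ∈ WZ Y e P W Z.length :=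
        Submodule.subset_span ⟨Z, hZ', rfl, w, hw, rfl⟩
      refine sub_mem (add_mem (WZ_T Y hz ih') ?_) ?_
      · split_ifs
        · exact WZ_T Y hz hm
        · exact zero_mem _
      · split_ifs
        · exact WZ_T Y hy hm
        · exact zero_mem _
  have h2 : WZ Y e P W r ≤ (WZ Y e P W r).comap (Y.S'.Hx e x y) := by
    nth_rewrite 1 [WZ]
    rw [Submodule.span_le]
    rintro ξ ⟨Z, hZ, rfl, w, hw, rfl⟩
    exact h1 Z hZ w hw
  exact h2 h

lemma WZ_R {e : ℕ} (hd : d = e + 1) {W : Submodule k F}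
    (hW : ∀ x y : σ, P x → P y → ∀ w ∈ W, S.D (X x) y w ∈ W) {r : ℕ} {x : σ} (hx : P x) {ξ : XF}
    (h : ξ ∈ WZ Y e P W r) : Y.S'.Rx e x ξ ∈ WZ Y e P W (r - 1) := by
  have h1 : ∀ (Z : List σ), (∀ z ∈ Z, P z) → ∀ (w : F), w ∈ W →
      Y.S'.Rx e x (Y.S'.Tl e Z (Y.j w)) ∈ WZ Y e P W (Z.length - 1) := by
    intro Z hZ w hw
    induction Z with
    | nil =>
      rw [Fx.Tl, Module.End.one_apply, Rx_j]
      exact zero_mem _
    | cons z Z ih =>
      have hZ' : ∀ z ∈ Z, P z := fun z' hz' => hZ z' (List.mem_cons_of_mem _ hz')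
      have hz : P z := hZ z List.mem_cons_self
      have ih' := ih hZ'
      have e1 := congrArg (fun f : Module.End k XF => f (Y.S'.Tl e Z (Y.j w)))
        (Y.S'.Rx_Tz' hd x z)
      simp only [Module.End.mul_apply, LinearMap.add_apply] at e1
      rw [Fx.Tl, Module.End.mul_apply, eq_sub_of_add_eq e1, List.length_cons, Nat.add_sub_cancel]
      have hm : Y.S'.Tl e Z (Y.j w) ∈ WZ Y e P W Z.length :=
        Submodule.subset_span ⟨Z, hZ', rfl, w, hw, rfl⟩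
      refine sub_mem (WZ_H Y hd hW hx hz hm) ?_
      rcases Z with _ | ⟨z', Z⟩
      · rw [Fx.Tl, Module.End.one_apply, Rx_j, map_zero]
        exact zero_mem _
      · have := WZ_T Y hz ih'
        rwa [List.length_cons, Nat.add_sub_cancel] at this
  have h2 : WZ Y e P W r ≤ (WZ Y e P W (r - 1)).comap (Y.S'.Rx e x) := by
    nth_rewrite 1 [WZ]
    rw [Submodule.span_le]
    rintro ξ ⟨Z, hZ, rfl, w, hw, rfl⟩
    exact h1 Z hZ w hw
  exact h2 h

lemma WZ_RR {e : ℕ} (hd : d = e + 1) {W : Submodule k F}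
    (hW : ∀ x y : σ, P x → P y → ∀ w ∈ W, S.D (X x) y w ∈ W) (Z : List σ) :
    (∀ z ∈ Z, P z) → ∀ {ξ : XF}, ξ ∈ WZ Y e P W Z.length → Y.S'.Rl e Z ξ ∈ WZ Y e P W 0 := by
  induction Z with
  | nil => intro _ ξ h; simpa [Fx.Rl] using h
  | cons z Z ih =>
    intro hZ ξ h
    rw [Fx.Rl, Module.End.mul_apply]
    refine ih (fun z' hz' => hZ z' (List.mem_cons_of_mem _ hz')) ?_
    have := WZ_R Y hd hW (hZ z List.mem_cons_self) h
    rwa [List.length_cons, Nat.add_sub_cancel] at this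

lemma WZ_R_TT {e : ℕ} (hd : d = e + 1) {W : Submodule k F} {κ : F} (x : σ) (Z : List σ)
    (hP : ∀ z ∈ Z, P z) (hx : x ∉ Z) (hZ : ∀ z ∈ Z, S.D (X x) z κ ∈ W) :
    Y.S'.Rx e x (Y.S'.Tl e Z (Y.j κ)) ∈ WZ Y e P W (Z.length - 1) := by
  induction Z with
  | nil =>
    rw [Fx.Tl, Module.End.one_apply, Rx_j]
    exact zero_mem _
  | cons z Z ih =>
    rw [List.mem_cons, not_or] at hx
    have hP' : ∀ z ∈ Z, P z := fun z' hz' => hP z' (List.mem_cons_of_mem _ hz')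
    have hz : P z := hP z List.mem_cons_self
    have e1 := congrArg (fun f : Module.End k XF => f (Y.S'.Tl e Z (Y.j κ)))
      (Y.S'.Rx_Tz' hd x z)
    simp only [Module.End.mul_apply, LinearMap.add_apply] at e1
    rw [Fx.Tl, Module.End.mul_apply, eq_sub_of_add_eq e1, List.length_cons, Nat.add_sub_cancel]
    have ih' := ih hP' hx.2 fun z' hz' => hZ z' (List.mem_cons_of_mem _ hz')
    refine sub_mem ?_ ?_
    · have e2 := congrArg (fun f : Module.End k XF => f (Y.j κ)) (Y.S'.Hx_TT_ne hd x z hx.1 Z hx.2)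
      simp only [Module.End.mul_apply] at e2
      rw [e2, Hx_j]
      exact Submodule.subset_span ⟨Z, hP', rfl, _, hZ z List.mem_cons_self, rfl⟩
    · rcases Z with _ | ⟨z', Z⟩
      · rw [Fx.Tl, Module.End.one_apply, Rx_j, map_zero]
        exact zero_mem _
      · have := WZ_T Y hz ih'
        rwa [List.length_cons, Nat.add_sub_cancel] at this

lemma WZ_RR_TT {e : ℕ} (hd : d = e + 1) {W : Submodule k F}
    (hW : ∀ x y : σ, P x → P y → ∀ w ∈ W, S.D (X x) y w ∈ W) {κ : F} {w : σ → ℕ}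
    (Z : List σ) (hP : ∀ z ∈ Z, P z) (hw : ∀ x ∈ Z, S.D (X x) x κ = (w x : k) • κ)
    (hZ : Z.Nodup) (hp : Z.Pairwise fun x y => S.D (X x) y κ ∈ W) :
    Y.S'.Rl e Z (Y.S'.Tl e Z (Y.j κ)) - (cpr w Z : k) • Y.j κ ∈ WZ Y e P W 0 := by
  induction Z with
  | nil =>
    simp only [Fx.Rl, Fx.Tl, Module.End.one_apply, cpr, Nat.cast_one, one_smul, sub_self]
    exact zero_mem _
  | cons z Z ih =>
    rw [List.nodup_cons] at hZ
    rw [List.pairwise_cons] at hp
    have hP' : ∀ z ∈ Z, P z := fun z' hz' => hP z' (List.mem_cons_of_mem _ hz')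
    have hz : P z := hP z List.mem_cons_self
    have ih' := ih hP' (fun x hx => hw x (List.mem_cons_of_mem _ hx)) hZ.2 hp.2
    have e1 := congrArg (fun f : Module.End k XF => f (Y.S'.Tl e Z (Y.j κ)))
      (Y.S'.Rx_Tz' hd z z)
    simp only [Module.End.mul_apply, LinearMap.add_apply] at e1
    have e2 := congrArg (fun f : Module.End k XF => f (Y.j κ)) (Y.S'.Hx_TT_self hd z Z hZ.1)
    simp only [Module.End.mul_apply, LinearMap.add_apply, LinearMap.smul_apply] at e2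
    have e3 : Y.S'.Tz e z (Y.S'.Rx e z (Y.S'.Tl e Z (Y.j κ))) ∈ WZ Y e P W Z.length := by
      rcases Z with _ | ⟨z', Z⟩
      · rw [Fx.Tl, Module.End.one_apply, Rx_j, map_zero]
        exact zero_mem _
      · have := WZ_T Y hz (WZ_R_TT Y hd z (z' :: Z) hP' hZ.1 hp.1)
        rwa [List.length_cons, Nat.add_sub_cancel] at this
    have e4 := WZ_RR Y hd hW Z hP' e3
    rw [Fx.Rl, Fx.Tl, Module.End.mul_apply, Module.End.mul_apply, eq_sub_of_add_eq e1, map_sub, e2,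
      Hx_j, hw z List.mem_cons_self, map_smul, map_smul, ← add_smul, map_smul, cpr, Nat.cast_mul,
      Nat.cast_add, mul_smul]
    have e5 := Submodule.smul_mem (WZ Y e P W 0) ((w z : k) + (Z.length : k)) ih'
    rw [smul_sub] at e5
    have e6 := sub_mem e5 e4
    have e7 : ((w z : k) + (Z.length : k)) • Y.S'.Rl e Z (Y.S'.Tl e Z (Y.j κ))
        - Y.S'.Rl e Z (Y.S'.Tz e z (Y.S'.Rx e z (Y.S'.Tl e Z (Y.j κ))))
        - ((w z : k) + (Z.length : k)) • (cpr w Z : k) • Y.j κ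
        = ((w z : k) + (Z.length : k)) • Y.S'.Rl e Z (Y.S'.Tl e Z (Y.j κ))
          - ((w z : k) + (Z.length : k)) • (cpr w Z : k) • Y.j κ
          - Y.S'.Rl e Z (Y.S'.Tz e z (Y.S'.Rx e z (Y.S'.Tl e Z (Y.j κ)))) := by abel
    rw [e7]
    exact e6

lemma WZ_zero {e : ℕ} {W : Submodule k F} {ξ : XF} (h : ξ ∈ WZ Y e P W 0) : Y.pr ξ ∈ W := by
  have h3 : WZ Y e P W 0 ≤ W.comap Y.pr := by
    unfold WZ
    rw [Submodule.span_le]
    rintro ξ ⟨Z, _, hZ, w, hw, rfl⟩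
    have : Z = [] := List.length_eq_zero_iff.mp hZ
    subst this
    show Y.pr (Y.S'.Tl e [] (Y.j w)) ∈ W
    rw [Fx.Tl, Module.End.one_apply, Y.pr_j]
    exact hw
  exact h3 h

/-- **restricted Capelli lemma** -/
theorem capZ {e : ℕ} (hd : d = e + 1) {W : Submodule k F}
    (hW : ∀ x y : σ, P x → P y → ∀ w ∈ W, S.D (X x) y w ∈ W) {κ : F} {w : σ → ℕ}
    (Z : List σ) (hP : ∀ z ∈ Z, P z) (hw : ∀ x ∈ Z, S.D (X x) x κ = (w x : k) • κ)
    (hZ : Z.Nodup) (hp : Z.Pairwise fun x y => S.D (X x) y κ ∈ W) :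
    Y.pr (Y.S'.Rl e Z (Y.S'.Tl e Z (Y.j κ))) - (cpr w Z : k) • κ ∈ W := by
  have h1 := WZ_zero Y (WZ_RR_TT Y hd hW Z hP hw hZ hp)
  rwa [map_sub, map_smul, Y.pr_j] at h1

end Pool.Agent.H27.OPS
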