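import Pool.Agent.H20.S3.Cap4

set_option autoImplicit false
set_option linter.unusedSectionVars false

/-!
# OPS: the operators `E_{xy} = x ∂_y` on the space with one odd letter, and `R_x`

* `Ex e x y` : the derivation `x ∂_y` on letters, slots and coefficients;
* `Ex_Rx` : `[E_{xy}, R_z] = δ_{yz} R_x`;
* `Rx_m`, `Rx_Rx` (on vectors with `dth (dth ξ) = 0`), `T_Rx`, `J_Rx`;
* `Ex_Rl_not`, `Ex_Rl`, `Rl_dup`, `Ex_Rl_mem`: the same for products `Rl e Z`.
-/

open MvPolynomial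

namespace Pool.Agent.H27.OPS

open Pool.Agent.H27.OP Pool.Agent.H20.S3

variable {σ k : Type*} [Fintype σ] [Field k]

section ring

variable {O : Type*} [Ring O] [Algebra k O] {d : ℕ} (S : Fx σ k O d)

/-- the derivation `x ∂_y` on the slots -/
noncomputable def Nx (S : Fx σ k O d) (e : ℕ) (x y : σ) : O :=
  ∑ ν ∈ Mo σ e, S.Bb e (X x * pderiv y (monomial ν 1)) * S.db ν

/-- the derivation `x ∂_y` on everything -/
noncomputable def Ex (S : Fx σ k O d) (e : ℕ) (x y : σ) : O :=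
  S.D (X x) y + Nx S e x y

/-- the slot part of `R_x` -/
noncomputable def Rs (S : Fx σ k O d) (e : ℕ) (x : σ) : O :=
  ∑ ν ∈ Mo σ e, S.Ee (X x * monomial ν 1) * S.db ν

lemma Rx_eq (e : ℕ) (x : σ) : S.Rx e x = S.m (X x) * S.dth + Rs S e x := rfl

lemma Rx_m (e : ℕ) (x : σ) (a : MvPolynomial σ k) : S.Rx e x * S.m a = S.m a * S.Rx e x := by
  rw [Rx_eq, add_mul, mul_add]
  congr 1
  · rw [mul_assoc, S.dthm, ← mul_assoc, S.mm, mul_assoc]
  · unfold Rs
    rw [Finset.sum_mul, Finset.mul_sum]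
    refine Finset.sum_congr rfl fun ν _ => ?_
    rw [mul_assoc, S.dbm, ← mul_assoc, ← S.mEe, mul_assoc]

lemma Rs_Rs (e : ℕ) (x y : σ) : Rs S e x * Rs S e y = -(Rs S e y * Rs S e x) := by
  unfold Rs
  rw [Finset.sum_mul_sum, Finset.sum_mul_sum, Finset.sum_comm, ← Finset.sum_neg_distrib]
  refine Finset.sum_congr rfl fun ν _ => ?_
  rw [← Finset.sum_neg_distrib]
  refine Finset.sum_congr rfl fun ν' _ => ?_
  rw [mul_assoc, ← mul_assoc (S.db ν'), S.db_Ee, mul_assoc (S.Ee _), S.dbdb, ← mul_assoc,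
    S.EeEe, neg_mul, mul_assoc, ← mul_assoc (S.Ee (X x * monomial ν' 1)), ← S.db_Ee, mul_assoc,
    mul_assoc]

lemma Rs_dth (e : ℕ) (x : σ) : Rs S e x * S.dth = -(S.dth * Rs S e x) := by
  unfold Rs
  rw [Finset.sum_mul, Finset.mul_sum, ← Finset.sum_neg_distrib]
  refine Finset.sum_congr rfl fun ν _ => ?_
  rw [mul_assoc, S.dbdth, ← mul_assoc,
    show S.Ee (X x * monomial ν 1) * S.dth = -(S.dth * S.Ee (X x * monomial ν 1)) by
      rw [S.Ee_comm_dth, neg_neg], neg_mul, mul_assoc]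

lemma Rs_m (e : ℕ) (x : σ) (a : MvPolynomial σ k) : Rs S e x * S.m a = S.m a * Rs S e x := by
  unfold Rs
  rw [Finset.sum_mul, Finset.mul_sum]
  refine Finset.sum_congr rfl fun ν _ => ?_
  rw [mul_assoc, S.dbm, ← mul_assoc, ← S.mEe, mul_assoc]

lemma Rs_th (e : ℕ) (x : σ) : Rs S e x * S.th = -(S.th * Rs S e x) := by
  unfold Rs
  rw [Finset.sum_mul, Finset.mul_sum, ← Finset.sum_neg_distrib]
  refine Finset.sum_congr rfl fun ν _ => ?_
  rw [mul_assoc, S.dbth, ← mul_assoc,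
    show S.Ee (X x * monomial ν 1) * S.th = -(S.th * S.Ee (X x * monomial ν 1)) by
      rw [S.Ee_comm_th, neg_neg], neg_mul, mul_assoc]

/-- the anticommutator of `R_x`, `R_y` -/
lemma Rx_Rx (e : ℕ) (x y : σ) : S.Rx e x * S.Rx e y
    = -(S.Rx e y * S.Rx e x) + (2 : k) • (S.m (X x * X y) * (S.dth * S.dth)) := by
  have h1 : ∀ x y : σ, S.m (X x) * S.dth * (S.m (X y) * S.dth)
      = S.m (X x * X y) * (S.dth * S.dth) := by
    intro x y
    rw [mul_assoc, ← mul_assoc S.dth, S.dthm, mul_assoc, ← mul_assoc, ← map_mul]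
  have h2 : ∀ x y : σ, Rs S e x * (S.m (X y) * S.dth) = -(S.m (X y) * S.dth * Rs S e x) := by
    intro x y
    rw [← mul_assoc, Rs_m, mul_assoc, Rs_dth, mul_neg, mul_assoc]
  rw [Rx_eq, Rx_eq, add_mul, mul_add, mul_add, add_mul, mul_add, mul_add, h1, h1, h2, h2, Rs_Rs,
    mul_comm (X y) (X x), two_smul]
  abel

lemma T_Rx {e : ℕ} {x z : σ} (h : x ≠ z) : S.T x * S.Rx e z = S.Rx e z * S.T x := by
  rw [Rx_eq, add_mul, mul_add]
  congr 1
  · rw [← mul_assoc, S.Tm, pderiv_X_of_ne (Ne.symm h), map_zero, add_zero, mul_assoc, ← S.dthT,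
      mul_assoc]
  · unfold Rs
    rw [Finset.sum_mul, Finset.mul_sum]
    refine Finset.sum_congr rfl fun ν _ => ?_
    rw [← mul_assoc, S.TEe, mul_assoc, ← S.dbT, mul_assoc]

lemma J_Rx {e : ℕ} (x : σ) {μ : σ →₀ ℕ} (hμ : μ ∈ Mo σ d) : S.J μ * S.Rx e x
    = -(S.Rx e x * S.J μ)
      + ∑ ν ∈ Mo σ e, coeff μ (X x * monomial ν (1 : k)) • S.db ν := by
  rw [Rx_eq, mul_add, add_mul]
  have h1 : S.J μ * (S.m (X x) * S.dth) = -(S.m (X x) * S.dth * S.J μ) := by
    rw [← mul_assoc, ← S.mJ, mul_assoc, show S.J μ * S.dth = -(S.dth * S.J μ) by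
      rw [S.dthJ, neg_neg], mul_neg, mul_assoc]
  have h2 : S.J μ * Rs S e x = -(Rs S e x * S.J μ)
      + ∑ ν ∈ Mo σ e, coeff μ (X x * monomial ν (1 : k)) • S.db ν := by
    unfold Rs
    rw [Finset.sum_mul, Finset.mul_sum, ← Finset.sum_neg_distrib, ← Finset.sum_add_distrib]
    refine Finset.sum_congr rfl fun ν _ => ?_
    rw [← mul_assoc, S.JEe hμ, sub_mul, smul_mul_assoc, one_mul, mul_assoc, mul_assoc, S.dbJ]
    abel
  rw [h1, h2]
  abel

lemma D_dth (c : MvPolynomial σ k) (y : σ) : S.D c y * S.dth = S.dth * S.D c y := by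
  unfold Fk.D
  rw [add_mul, mul_add, Finset.sum_mul, Finset.mul_sum]
  congr 1
  · rw [mul_assoc, ← S.dthT, ← mul_assoc, ← S.dthm, mul_assoc]
  · refine Finset.sum_congr rfl fun μ _ => ?_
    rw [mul_assoc, show S.J μ * S.dth = -(S.dth * S.J μ) by rw [S.dthJ, neg_neg], mul_neg,
      ← mul_assoc, show S.Ee (c * pderiv y (monomial μ 1)) * S.dth
        = -(S.dth * S.Ee (c * pderiv y (monomial μ 1))) by rw [S.Ee_comm_dth, neg_neg], neg_mul,
      neg_neg, mul_assoc]

lemma D_db (c : MvPolynomial σ k) (y : σ) (ν : σ →₀ ℕ) : S.D c y * S.db ν = S.db ν * S.D c y := by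
  unfold Fk.D
  rw [add_mul, mul_add, Finset.sum_mul, Finset.mul_sum]
  congr 1
  · rw [mul_assoc, ← S.dbT, ← mul_assoc, ← S.dbm, mul_assoc]
  · refine Finset.sum_congr rfl fun μ _ => ?_
    rw [mul_assoc, ← S.dbJ, ← mul_assoc, ← S.db_Ee, mul_assoc]

lemma D_b (c : MvPolynomial σ k) (y : σ) (ν : σ →₀ ℕ) : S.D c y * S.b ν = S.b ν * S.D c y := by
  have h1 : ∀ u : MvPolynomial σ k, S.b ν * S.Ee u = S.Ee u * S.b ν := by
    intro u
    rw [Fk.Ee_apply, Finset.mul_sum, Finset.sum_mul]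
    refine Finset.sum_congr rfl fun μ _ => ?_
    rw [mul_smul_comm, smul_mul_assoc, S.bE]
  unfold Fk.D
  rw [add_mul, mul_add, Finset.sum_mul, Finset.mul_sum]
  congr 1
  · rw [mul_assoc, ← S.bT, ← mul_assoc, ← S.bm, mul_assoc]
  · refine Finset.sum_congr rfl fun μ _ => ?_
    rw [mul_assoc, ← S.bJ, ← mul_assoc, ← h1, mul_assoc]

lemma Nx_th (e : ℕ) (x y : σ) : Nx S e x y * S.th = S.th * Nx S e x y := by
  unfold Nx
  rw [Finset.sum_mul, Finset.mul_sum]
  refine Finset.sum_congr rfl fun ν _ => ?_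
  rw [mul_assoc, S.dbth, ← mul_assoc, S.Bb_th, mul_assoc]

lemma Nx_dth (e : ℕ) (x y : σ) : Nx S e x y * S.dth = S.dth * Nx S e x y := by
  unfold Nx
  rw [Finset.sum_mul, Finset.mul_sum]
  refine Finset.sum_congr rfl fun ν _ => ?_
  rw [mul_assoc, S.dbdth, ← mul_assoc, S.Bb_dth, mul_assoc]

lemma Nx_m (e : ℕ) (x y : σ) (a : MvPolynomial σ k) : Nx S e x y * S.m a = S.m a * Nx S e x y := by
  unfold Nx
  rw [Finset.sum_mul, Finset.mul_sum]
  refine Finset.sum_congr rfl fun ν _ => ?_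
  rw [mul_assoc, S.dbm, ← mul_assoc, S.Bb_m, mul_assoc]

lemma Nx_b {e : ℕ} (x y : σ) {ν : σ →₀ ℕ} (hν : ν ∈ Mo σ e) :
    Nx S e x y * S.b ν = S.b ν * Nx S e x y + S.Bb e (X x * pderiv y (monomial ν 1)) := by
  classical
  have h1 : ∀ ν' ∈ Mo σ e, S.Bb e (X x * pderiv y (monomial ν' 1)) * S.db ν' * S.b ν
      = S.b ν * (S.Bb e (X x * pderiv y (monomial ν' 1)) * S.db ν')
        + (if ν' = ν then S.Bb e (X x * pderiv y (monomial ν 1)) else 0) := by
    intro ν' _
    have h2 : ∀ u, S.Bb e u * S.b ν = S.b ν * S.Bb e u := fun u =>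
      S.Bb_comm u _ fun ν' => S.bb ν' ν
    by_cases h : ν' = ν
    · subst h
      rw [if_pos rfl, mul_assoc, S.dbbs, mul_add, mul_one, ← mul_assoc, ← mul_assoc, h2]
    · rw [if_neg h, add_zero, mul_assoc, S.dbb ν' ν h, ← mul_assoc, ← mul_assoc, h2]
  unfold Nx
  rw [Finset.sum_mul, Finset.sum_congr rfl h1, Finset.sum_add_distrib, Finset.sum_ite_eq',
    if_pos hν, Finset.mul_sum]

lemma Ex_th (e : ℕ) (x y : σ) : Ex S e x y * S.th = S.th * Ex S e x y := by
  unfold Ex
  rw [add_mul, mul_add, S.D_th, Nx_th]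

lemma Ex_b {e : ℕ} (x y : σ) {ν : σ →₀ ℕ} (hν : ν ∈ Mo σ e) :
    Ex S e x y * S.b ν = S.b ν * Ex S e x y + S.Bb e (X x * pderiv y (monomial ν 1)) := by
  unfold Ex
  rw [add_mul, mul_add, D_b, Nx_b S x y hν, add_assoc]

open Classical in
/-- `[E_{xy}, R_z] = δ_{yz} R_x` -/
lemma Ex_Rx {e : ℕ} (hd : d = e + 1) (x y z : σ) :
    Ex S e x y * S.Rx e z = S.Rx e z * Ex S e x y + (if y = z then S.Rx e x else 0) := by
  have hX : ∀ x : σ, (X x : MvPolynomial σ k).IsHomogeneous 1 := fun x => isHomogeneous_X _ _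
  -- the coefficient part
  have h1 : S.D (X x) y * (S.m (X z) * S.dth) = S.m (X z) * S.dth * S.D (X x) y
      + (if y = z then S.m (X x) * S.dth else 0) := by
    rw [← mul_assoc, S.D_m, add_mul, mul_assoc, D_dth, mul_assoc, pderiv_X]
    congr 1
    by_cases h : y = z
    · subst h; simp
    · rw [if_neg h, Pi.single_eq_of_ne (Ne.symm h)]; simp
  have h2 : Nx S e x y * (S.m (X z) * S.dth) = S.m (X z) * S.dth * Nx S e x y := by
    rw [← mul_assoc, Nx_m, mul_assoc, Nx_dth, mul_assoc]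
  -- the slot part
  have h3 : S.D (X x) y * Rs S e z = Rs S e z * S.D (X x) y
      + ∑ ν ∈ Mo σ e, S.Ee (X x * pderiv y (X z * monomial ν 1)) * S.db ν := by
    unfold Rs
    rw [Finset.sum_mul, Finset.mul_sum, ← Finset.sum_add_distrib]
    refine Finset.sum_congr rfl fun ν hν => ?_
    have hh : (X z * monomial ν (1 : k)).IsHomogeneous d := by
      rw [hd, add_comm]
      exact (hX z).mul (isHomogeneous_monomial _ (mem_Mo.mp hν))
    rw [← mul_assoc, S.D_Ee y hh, add_mul, mul_assoc, D_db, mul_assoc]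
  have h4 : Nx S e x y * Rs S e z = Rs S e z * Nx S e x y
      - ∑ ν ∈ Mo σ e, S.Ee (X z * (X x * pderiv y (monomial ν 1))) * S.db ν := by
    have e1 : ∀ ν ∈ Mo σ e, ∀ ν' ∈ Mo σ e,
        S.Bb e (X x * pderiv y (monomial ν 1)) * S.db ν * (S.Ee (X z * monomial ν' 1) * S.db ν')
        = S.Ee (X z * monomial ν' 1) * S.db ν' * (S.Bb e (X x * pderiv y (monomial ν 1)) * S.db ν)
          - coeff ν' (X x * pderiv y (monomial ν (1 : k))) •
            ((S.Ee.comp (LinearMap.mulLeft k (X z))) (monomial ν' 1) * S.db ν) := by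
      intro ν _ ν' hν'
      have a1 : S.Bb e (X x * pderiv y (monomial ν 1)) * S.db ν
            * (S.Ee (X z * monomial ν' 1) * S.db ν')
          = S.Ee (X z * monomial ν' 1) * (S.Bb e (X x * pderiv y (monomial ν 1)) * S.db ν')
            * S.db ν := by
        rw [mul_assoc, ← mul_assoc (S.db ν), S.db_Ee, mul_assoc (S.Ee _), S.dbdb, ← mul_assoc,
          S.Bb_Ee]
        simp only [mul_assoc]
      have a2 : S.Ee (X z * monomial ν' 1) * S.db ν'
            * (S.Bb e (X x * pderiv y (monomial ν 1)) * S.db ν)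
          = S.Ee (X z * monomial ν' 1) * (S.Bb e (X x * pderiv y (monomial ν 1)) * S.db ν')
            * S.db ν + coeff ν' (X x * pderiv y (monomial ν (1 : k))) •
              (S.Ee (X z * monomial ν' 1) * S.db ν) := by
        rw [mul_assoc, ← mul_assoc (S.db ν'), S.db_Bb hν', add_mul, mul_add, smul_mul_assoc,
          one_mul, mul_smul_comm]
        simp only [mul_assoc]
      rw [a1, a2, LinearMap.comp_apply, LinearMap.mulLeft_apply]
      abel
    unfold Nx Rs
    rw [Finset.sum_mul_sum, Finset.sum_congr rfl fun ν hν => Finset.sum_congr rfl (e1 ν hν)]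
    simp only [Finset.sum_sub_distrib]
    congr 1
    · rw [Finset.sum_comm, Finset.sum_mul_sum]
    · refine Finset.sum_congr rfl fun ν hν => ?_
      have hh : (X x * pderiv y (monomial ν (1 : k))).IsHomogeneous e :=
        Fk.hom_cpd (hX x) y (isHomogeneous_monomial _ (mem_Mo.mp hν))
      have := sum_coeff (S.Ee.comp (LinearMap.mulLeft k (X z))) hh
      rw [LinearMap.comp_apply, LinearMap.mulLeft_apply] at this
      rw [← this, Finset.sum_mul]
      simp only [smul_mul_assoc]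
  have h5 : ∑ ν ∈ Mo σ e, S.Ee (X x * pderiv y (X z * monomial ν 1)) * S.db ν
      = ∑ ν ∈ Mo σ e, S.Ee (X z * (X x * pderiv y (monomial ν 1))) * S.db ν
        + (if y = z then Rs S e x else 0) := by
    have h6 : (if y = z then Rs S e x else 0) = ∑ ν ∈ Mo σ e,
        (if y = z then S.Ee (X x * monomial ν 1) * S.db ν else 0) := by
      by_cases h : y = z
      · simp only [if_pos h]; rfl
      · simp only [if_neg h, Finset.sum_const_zero]
    rw [h6, ← Finset.sum_add_distrib]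
    refine Finset.sum_congr rfl fun ν _ => ?_
    by_cases h : y = z
    · subst h
      rw [if_pos rfl, Derivation.leibniz, pderiv_X_self, ← add_mul, ← map_add]
      congr 2
      simp only [smul_eq_mul]
      ring
    · rw [if_neg h, add_zero, Derivation.leibniz, pderiv_X_of_ne (Ne.symm h), smul_zero, add_zero,
        smul_eq_mul]
      congr 2
      ring
  have h7 : (if y = z then S.Rx e x else 0) = (if y = z then S.m (X x) * S.dth else 0)
      + (if y = z then Rs S e x else 0) := by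
    split_ifs
    · rfl
    · simp
  rw [h7, Rx_eq, Ex, add_mul, mul_add, mul_add, h1, h2, h3, h4, h5, mul_add, add_mul, add_mul]
  abel

lemma Rl_m (e : ℕ) (Z : List σ) (a : MvPolynomial σ k) :
    S.Rl e Z * S.m a = S.m a * S.Rl e Z := by
  induction Z with
  | nil => simp [Fx.Rl]
  | cons z Z ih => rw [Fx.Rl, mul_assoc, Rx_m, ← mul_assoc, ih, mul_assoc]

lemma T_Rl {e : ℕ} {x : σ} (Z : List σ) (h : x ∉ Z) : S.T x * S.Rl e Z = S.Rl e Z * S.T x := by
  induction Z with
  | nil => simp [Fx.Rl]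
  | cons z Z ih =>
    rw [List.mem_cons, not_or] at h
    rw [Fx.Rl, ← mul_assoc, ih h.2, mul_assoc, T_Rx S h.1, ← mul_assoc]

lemma Ex_Rl_not {e : ℕ} (hd : d = e + 1) (x y : σ) (Z : List σ) (h : y ∉ Z) :
    Ex S e x y * S.Rl e Z = S.Rl e Z * Ex S e x y := by
  induction Z with
  | nil => simp [Fx.Rl]
  | cons z Z ih =>
    rw [List.mem_cons, not_or] at h
    rw [Fx.Rl, ← mul_assoc, ih h.2, mul_assoc, Ex_Rx S hd, if_neg h.1, add_zero, mul_assoc]

open Classical in
lemma Ex_Rl {e : ℕ} (hd : d = e + 1) (x y : σ) (Z : List σ) (hn : Z.Nodup) (h : y ∈ Z) :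
    Ex S e x y * S.Rl e Z = S.Rl e Z * Ex S e x y
      + S.Rl e (Z.map fun z => if z = y then x else z) := by
  induction Z with
  | nil => simp at h
  | cons z Z ih =>
    rw [List.nodup_cons] at hn
    by_cases hz : z = y
    · subst hz
      have h2 : Z.map (fun z' => if z' = z then x else z') = Z := by
        conv_rhs => rw [← List.map_id Z]
        refine List.map_congr_left fun z' hz' => ?_
        have hne : z' ≠ z := by
          intro h3
          rw [h3] at hz'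
          exact hn.1 hz'
        rw [if_neg hne, id]
      rw [List.map_cons, if_pos rfl, h2, Fx.Rl, Fx.Rl, ← mul_assoc, Ex_Rl_not S hd x z Z hn.1,
        mul_assoc, Ex_Rx S hd, if_pos rfl, mul_add, mul_assoc]
    · have h2 : y ∈ Z := by
        rcases List.mem_cons.mp h with h3 | h3
        · exact absurd h3.symm hz
        · exact h3
      rw [List.map_cons, if_neg hz, Fx.Rl, Fx.Rl, ← mul_assoc, ih hn.2 h2, add_mul, mul_assoc,
        Ex_Rx S hd, if_neg (fun h => hz h.symm), add_zero, mul_assoc]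

end ring

section vec

variable {XF : Type*} [AddCommGroup XF] [Module k XF] {d : ℕ}
variable (S : Fx σ k (Module.End k XF) d)

lemma dd_Rx {e : ℕ} (x : σ) {ξ : XF} (h : S.dth (S.dth ξ) = 0) :
    S.dth (S.dth (S.Rx e x ξ)) = 0 := by
  have h1 : S.dth * S.Rx e x = S.m (X x) * (S.dth * S.dth) - Rs S e x * S.dth := by
    rw [Rx_eq, mul_add, Rs_dth, ← mul_assoc, S.dthm, mul_assoc]
    abel
  have h2 := congrArg (fun f : Module.End k XF => f ξ) h1
  simp only [Module.End.mul_apply, LinearMap.sub_apply, h, map_zero, zero_sub] at h2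
  have h3 := congrArg (fun f : Module.End k XF => f (S.dth ξ)) (Rs_dth S e x)
  simp only [Module.End.mul_apply, LinearMap.neg_apply, h, map_zero] at h3
  rw [h2, map_neg, h3.symm]

lemma Rx_Rx_v (e : ℕ) (x y : σ) {ξ : XF} (h : S.dth (S.dth ξ) = 0) :
    S.Rx e x (S.Rx e y ξ) = -(S.Rx e y (S.Rx e x ξ)) := by
  have h1 := congrArg (fun f : Module.End k XF => f ξ) (Rx_Rx S e x y)
  simp only [Module.End.mul_apply, LinearMap.add_apply, LinearMap.neg_apply,
    LinearMap.smul_apply, h, map_zero, smul_zero, add_zero] at h1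
  exact h1

lemma Rx_self [CharZero k] (e : ℕ) (x : σ) {ξ : XF} (h : S.dth (S.dth ξ) = 0) :
    S.Rx e x (S.Rx e x ξ) = 0 := by
  have h1 := Rx_Rx_v S e x x h
  have h2 : (2 : k) • S.Rx e x (S.Rx e x ξ) = 0 := by
    rw [two_smul]
    nth_rewrite 1 [h1]
    exact neg_add_cancel _
  rcases smul_eq_zero.mp h2 with h3 | h3
  · exact absurd h3 two_ne_zero
  · exact h3

lemma Rl_Rx_zero [CharZero k] (e : ℕ) {x : σ} (Z : List σ) (hx : x ∈ Z) :
    ∀ {ξ : XF}, S.dth (S.dth ξ) = 0 → S.Rl e Z (S.Rx e x ξ) = 0 := by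
  induction Z with
  | nil => simp at hx
  | cons z Z ih =>
    intro ξ h
    rw [Fx.Rl, Module.End.mul_apply]
    by_cases hz : x = z
    · subst hz
      rw [Rx_self S e x h, map_zero]
    · have h2 : x ∈ Z := by
        rcases List.mem_cons.mp hx with h3 | h3
        · exact absurd h3 hz
        · exact h3
      rw [Rx_Rx_v S e z x h, map_neg, ih h2 (dd_Rx S z h), neg_zero]

lemma Rl_dup [CharZero k] (e : ℕ) (Z : List σ) (hZ : ¬ Z.Nodup) :
    ∀ {ξ : XF}, S.dth (S.dth ξ) = 0 → S.Rl e Z ξ = 0 := by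
  induction Z with
  | nil => simp at hZ
  | cons z Z ih =>
    intro ξ h
    rw [Fx.Rl, Module.End.mul_apply]
    by_cases hz : z ∈ Z
    · exact Rl_Rx_zero S e Z hz h
    · refine ih (fun h1 => hZ (List.nodup_cons.mpr ⟨hz, h1⟩)) (dd_Rx S z h)

open Classical in
/-- `E_{xy} R_Z = R_Z E_{xy} + δ_{xy} R_Z` for `x, y ∈ Z` -/
lemma Ex_Rl_mem [CharZero k] {e : ℕ} (hd : d = e + 1) {x y : σ} (Z : List σ) (hn : Z.Nodup)
    (hx : x ∈ Z) (hy : y ∈ Z) {ξ : XF} (h : S.dth (S.dth ξ) = 0) :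
    Ex S e x y (S.Rl e Z ξ) = S.Rl e Z (Ex S e x y ξ) + (if x = y then S.Rl e Z ξ else 0) := by
  have h1 := congrArg (fun f : Module.End k XF => f ξ) (Ex_Rl S hd x y Z hn hy)
  simp only [Module.End.mul_apply, LinearMap.add_apply] at h1
  rw [h1]
  congr 1
  by_cases hxy : x = y
  · subst hxy
    rw [if_pos rfl]
    have h2 : Z.map (fun z => if z = x then x else z) = Z := by
      conv_rhs => rw [← List.map_id Z]
      refine List.map_congr_left fun z _ => ?_
      by_cases hz : z = x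
      · rw [if_pos hz, hz, id]
      · rw [if_neg hz, id]
    rw [h2]
  · rw [if_neg hxy]
    refine Rl_dup S e _ ?_ h
    intro h3
    have h4 := List.inj_on_of_nodup_map h3
    have h5 := h4 hx hy (by simp [hxy])
    exact hxy h5

end vec

end Pool.Agent.H27.OPS
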